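import Pool.Agent.X260.LR.Hyp

/-!
# Hyperbolicity and finite index overgroups
-/

set_option autoImplicit false

namespace Pool.Agent.X260.LR

open Pool.Agent.H97R3.VR Pool.Agent.TH97.VR

section coarse

variable {V β : Type} {X : SimpleGraph V} {t : β → β → ℕ} {δ : ℕ}

/-- `X` is quasi-isometric to the hyperbolic metric `t` -/
structure QH (X : SimpleGraph V) (t : β → β → ℕ) (δ : ℕ) (p : V → β) (i : β → V) (C : ℕ) :
    Prop where
  conn : X.Connected
  nm : NM t
  hyp : H4 t δ
  lp : ∀ x y, t (p x) (p y) ≤ C * X.dist x y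
  li : ∀ u v, X.dist (i u) (i v) ≤ C * t u v
  near : ∀ x, X.dist x (i (p x)) ≤ C

variable {p : V → β} {i : β → V} {C : ℕ}

theorem QH.lower (h : QH X t δ p i C) (x y : V) : X.dist x y ≤ C * t (p x) (p y) + 2 * C := by
  have h1 : X.dist x y ≤ X.dist x (i (p x)) + X.dist (i (p x)) y := h.conn.dist_triangle
  have h2 : X.dist (i (p x)) y ≤ X.dist (i (p x)) (i (p y)) + X.dist (i (p y)) y :=
    h.conn.dist_triangle
  have h3 := h.near x
  have h4 := h.near y
  have h5 := h.li (p x) (p y)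
  have h6 : X.dist (i (p y)) y = X.dist y (i (p y)) := SimpleGraph.dist_comm
  omega

theorem QH.qg (h : QH X t δ p i C) {k : ℕ} {q : ℕ → V}
    (hq : ∀ a b, a ≤ b → b ≤ k → a + X.dist (q a) (q b) = b) :
    QG t (2 * C) k (fun j => p (q j)) := by
  constructor
  · intro j hj
    have h1 := h.lp (q j) (q (j + 1))
    have h2 := hq j (j + 1) (Nat.le_succ j) hj
    have h3 : X.dist (q j) (q (j + 1)) = 1 := by omega
    rw [h3] at h1
    show t (p (q j)) (p (q (j + 1))) ≤ 2 * C
    omega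
  · intro a b hab hb
    have h1 := h.lower (q a) (q b)
    have h2 := hq a b hab hb
    have h3 : 2 * C * t (p (q a)) (p (q b)) = C * t (p (q a)) (p (q b)) + C * t (p (q a)) (p (q b)) := by
      ring
    show b ≤ a + 2 * C * t (p (q a)) (p (q b)) + 2 * C
    omega

theorem QH.near_geod (h : QH X t δ p i C) : ∃ R, ∀ x y z,
    t (p x) z + t z (p y) = t (p x) (p y) → X.dist x (i z) + X.dist (i z) y ≤ X.dist x y + R := by
  obtain ⟨R, hR⟩ := morse_a h.nm h.hyp (2 * C)
  refine ⟨2 * (C * R + C), fun x y z hz => ?_⟩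
  obtain ⟨q, q0, q1, hq⟩ := conn_geod h.conn x _ y rfl
  obtain ⟨j, hj, h1⟩ := hR _ _ (h.qg hq) z (by
    show t (p (q 0)) z + t z (p (q (X.dist x y))) = t (p (q 0)) (p (q (X.dist x y)))
    rw [q0, q1]; exact hz)
  have h1 : t z (p (q j)) ≤ R := h1
  have h2 := h.li z (p (q j))
  have h3 := h.near (q j)
  have h4 : X.dist (q j) (i z) ≤ X.dist (q j) (i (p (q j))) + X.dist (i (p (q j))) (i z) :=
    h.conn.dist_triangle
  have h5 : X.dist (i (p (q j))) (i z) = X.dist (i z) (i (p (q j))) := SimpleGraph.dist_comm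
  have h6 : C * t z (p (q j)) ≤ C * R := Nat.mul_le_mul_left C h1
  have h7 : X.dist x (i z) ≤ X.dist x (q j) + X.dist (q j) (i z) := h.conn.dist_triangle
  have h8 : X.dist (i z) y ≤ X.dist (i z) (q j) + X.dist (q j) y := h.conn.dist_triangle
  have h9 : X.dist (i z) (q j) = X.dist (q j) (i z) := SimpleGraph.dist_comm
  have c1 := hq 0 j (Nat.zero_le _) hj
  have c2 := hq j _ hj le_rfl
  rw [q0] at c1
  rw [q1] at c2
  omega

/-- almost geodesic points are near geodesic points -/
theorem almost_geod (hd : NM t) (hyp : H4 t δ) {κ : ℕ} {a b z : β}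
    (hz : t a z + t z b ≤ t a b + κ) :
    ∃ z', t a z' + t z' b = t a b ∧ t z z' ≤ κ + 2 * δ := by
  have s1 := hd.symm z a
  have s2 := hd.symm z b
  by_cases hle : t a z ≤ t a b
  · obtain ⟨z', h1, h2⟩ := hd.geo a b (t a z) hle
    refine ⟨z', by omega, ?_⟩
    have h3 := hyp.or z z' a b
    have s3 := hd.symm z' a
    have s4 := hd.symm z' b
    have s5 := hd.symm b z'
    rcases h3 with h3 | h3 <;> omega
  · refine ⟨b, by have := hd.self b; omega, ?_⟩
    omega

theorem QH.almost (h : QH X t δ p i C) (κ : ℕ) : ∃ R, ∀ x y z,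
    t (p x) z + t z (p y) ≤ t (p x) (p y) + κ →
      X.dist x (i z) + X.dist (i z) y ≤ X.dist x y + R := by
  obtain ⟨R, hR⟩ := h.near_geod
  refine ⟨R + 2 * (C * (κ + 2 * δ)), fun x y z hz => ?_⟩
  obtain ⟨z', h1, h2⟩ := almost_geod h.nm h.hyp hz
  have h3 := hR x y z' h1
  have h4 := h.li z z'
  have h5 : C * t z z' ≤ C * (κ + 2 * δ) := Nat.mul_le_mul_left C h2
  have t1 : X.dist x (i z) ≤ X.dist x (i z') + X.dist (i z') (i z) := h.conn.dist_triangle
  have t2 : X.dist (i z) y ≤ X.dist (i z) (i z') + X.dist (i z') y := h.conn.dist_triangle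
  have t3 : X.dist (i z') (i z) = X.dist (i z) (i z') := SimpleGraph.dist_comm
  omega

theorem QH.h4 (h : QH X t δ p i C) : ∃ δ', H4 (fun x y => X.dist x y) δ' := by
  obtain ⟨R, hR⟩ := h.almost (2 * δ + 1)
  refine ⟨R, fun x y z w => ?_⟩
  show X.dist x y + X.dist z w ≤ max (X.dist x z + X.dist y w) (X.dist x w + X.dist y z) + 2 * R
  have hd := h.nm
  -- a quasi-median of `p x, p y, p z`
  have r1 := hd.tri (p x) (p y) (p z)
  have r2 := hd.tri (p y) (p x) (p z)
  have r3 := hd.tri (p x) (p z) (p y)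
  have s1 := hd.symm (p y) (p x)
  have s2 := hd.symm (p z) (p y)
  obtain ⟨m, hm1, hm2⟩ := hd.geo (p x) (p y) ((t (p x) (p y) + t (p x) (p z) - t (p y) (p z)) / 2)
    (by omega)
  have s3 := hd.symm m (p x)
  have s4 := hd.symm m (p y)
  have s5 := hd.symm m (p z)
  have s6 := hd.symm (p z) (p x)
  have e1 := h.hyp.or (p z) m (p x) (p y)
  have m2 : t (p y) m + t m (p z) ≤ t (p y) (p z) + (2 * δ + 1) := by
    rcases e1 with e1 | e1 <;> omega
  have m3 : t (p x) m + t m (p z) ≤ t (p x) (p z) + (2 * δ + 1) := by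
    rcases e1 with e1 | e1 <;> omega
  have a1 : X.dist x y ≤ X.dist x (i m) + X.dist (i m) y := h.conn.dist_triangle
  have a2 : X.dist z w ≤ X.dist z (i m) + X.dist (i m) w := h.conn.dist_triangle
  have u1 : X.dist (i m) y = X.dist y (i m) := SimpleGraph.dist_comm
  have u2 : X.dist z (i m) = X.dist (i m) z := SimpleGraph.dist_comm
  have e2 := h.hyp.or (p x) (p y) (p w) m
  have s7 := hd.symm (p w) m
  rcases e2 with e2 | e2
  · have n1 : t (p x) m + t m (p w) ≤ t (p x) (p w) + (2 * δ + 1) := by omega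
    have b1 := hR x w m n1
    have b2 := hR y z m m2
    omega
  · have n1 : t (p y) m + t m (p w) ≤ t (p y) (p w) + (2 * δ + 1) := by omega
    have b1 := hR y w m n1
    have b2 := hR x z m m3
    omega

end coarse

end Pool.Agent.X260.LR
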