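import Pool.Agent.TH97.VR.Top

/-!
# The Cayley tree of a free group as a median graph
-/

set_option autoImplicit false

namespace Pool.Agent.X260.LR

open Pool.Agent.H97R3.VR Pool.Agent.TH97.VR
open FreeGroup hiding map_mul map_one map_inv

section words

variable {α : Type}

open Classical in
/-- length of the longest common prefix -/
noncomputable def cp : List (α × Bool) → List (α × Bool) → ℕ
  | a :: l, b :: m => if a = b then cp l m + 1 else 0
  | _, _ => 0

theorem cp_nil_left (l : List (α × Bool)) : cp [] l = 0 := by
  cases l <;> simp [cp]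

theorem cp_nil_right (l : List (α × Bool)) : cp l [] = 0 := by
  cases l <;> simp [cp]

theorem cp_ultra (m : List (α × Bool)) : ∀ l n, min (cp l m) (cp m n) ≤ cp l n := by
  induction m with
  | nil => intro l n; rw [cp_nil_right]; simp
  | cons b m ih =>
    intro l n
    cases l with
    | nil => rw [cp_nil_left]; simp
    | cons a l =>
      cases n with
      | nil => rw [cp_nil_right (b :: m)]; simp
      | cons c n =>
        by_cases h1 : a = b
        · by_cases h2 : b = c
          · subst h1; subst h2
            simp only [cp, if_true]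
            have := ih l n
            omega
          · simp [cp, h2]
        · simp [cp, h1]

theorem mk_cons_inv_mul (a : α × Bool) (L M : List (α × Bool)) :
    (mk (a :: L))⁻¹ * mk (a :: M) = (mk L)⁻¹ * mk M := by
  have h1 : mk (a :: L) = mk [a] * mk L := by rw [FreeGroup.mul_mk]; rfl
  have h2 : mk (a :: M) = mk [a] * mk M := by rw [FreeGroup.mul_mk]; rfl
  rw [h1, h2]
  group

variable [DecidableEq α]

theorem norm_mk_of_red {L : List (α × Bool)} (h : IsReduced L) : (mk L).norm = L.length := by
  unfold FreeGroup.norm
  rw [toWord_mk, h.reduce_eq]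

theorem red_junction {a b : α × Bool} {L M : List (α × Bool)} (h1 : IsReduced (a :: L))
    (h2 : IsReduced (b :: M)) (hab : a ≠ b) : IsReduced (invRev (a :: L) ++ (b :: M)) := by
  have h3 : IsReduced (invRev (a :: L)) := by
    have : IsReduced ((mk (a :: L))⁻¹).toWord := isReduced_toWord
    rw [toWord_inv, toWord_mk, h1.reduce_eq] at this
    exact this
  have h4 : invRev (a :: L) = invRev L ++ [(a.1, !a.2)] := by
    simp [invRev]
  rw [h4] at h3 ⊢
  have h5 : IsReduced ([(a.1, !a.2)] ++ (b :: M)) := by
    rw [List.singleton_append, FreeGroup.isReduced_cons_cons]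
    refine ⟨?_, h2⟩
    intro h
    by_contra hc
    apply hab
    have h : a.1 = b.1 := h
    have hc : ¬ (!a.2) = b.2 := hc
    apply Prod.ext h
    revert hc
    cases a.2 <;> cases b.2 <;> simp
  exact h3.append_overlap h5 (by simp)

theorem norm_inv_mul (L : List (α × Bool)) : ∀ M, IsReduced L → IsReduced M →
    ((mk L)⁻¹ * mk M).norm + 2 * cp L M = L.length + M.length := by
  induction L with
  | nil =>
    intro M _ hM
    rw [cp_nil_left]
    have : (mk ([] : List (α × Bool)))⁻¹ * mk M = mk M := by
      have : mk ([] : List (α × Bool)) = 1 := rfl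
      rw [this]; simp
    rw [this, norm_mk_of_red hM]
    simp
  | cons a L ih =>
    intro M hL hM
    cases M with
    | nil =>
      rw [cp_nil_right]
      have : (mk (a :: L))⁻¹ * mk [] = (mk (a :: L))⁻¹ := by
        have : mk ([] : List (α × Bool)) = 1 := rfl
        rw [this]; simp
      rw [this, norm_inv_eq, norm_mk_of_red hL]
      simp
    | cons b M =>
      by_cases hab : a = b
      · subst hab
        rw [mk_cons_inv_mul]
        have := ih M (List.IsChain.tail hL) (List.IsChain.tail hM)
        simp only [cp, if_true, List.length_cons]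
        omega
      · rw [FreeGroup.inv_mk, FreeGroup.mul_mk, norm_mk_of_red (red_junction hL hM hab)]
        simp [cp, hab, invRev]
        omega

/-- the tree metric of the free group -/
def nd (x y : FreeGroup α) : ℕ := (x⁻¹ * y).norm

theorem nd_self (x : FreeGroup α) : nd x x = 0 := by
  unfold nd; rw [inv_mul_cancel]; exact FreeGroup.norm_one

theorem nd_symm (x y : FreeGroup α) : nd x y = nd y x := by
  unfold nd; rw [← norm_inv_eq]; congr 1; group

theorem nd_tri (x y z : FreeGroup α) : nd x z ≤ nd x y + nd y z := by
  unfold nd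
  have : x⁻¹ * z = (x⁻¹ * y) * (y⁻¹ * z) := by group
  rw [this]
  exact FreeGroup.norm_mul_le _ _

theorem nd_left (g x y : FreeGroup α) : nd (g * x) (g * y) = nd x y := by
  unfold nd; congr 1; group

theorem nd_eq (x y : FreeGroup α) (h : nd x y = 0) : x = y := by
  unfold nd at h
  rw [FreeGroup.norm_eq_zero] at h
  exact inv_mul_eq_one.1 h

theorem nd_cp (x y : FreeGroup α) : nd x y + 2 * cp x.toWord y.toWord = x.norm + y.norm := by
  have := norm_inv_mul x.toWord y.toWord isReduced_toWord isReduced_toWord
  rw [mk_toWord, mk_toWord] at this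
  exact this

theorem nd_one (x : FreeGroup α) : nd x 1 = x.norm := by
  unfold nd; rw [mul_one, norm_inv_eq]

theorem nd_h4 : H4 (nd (α := α)) 0 := by
  intro x y z w
  rw [← nd_left w⁻¹ x y, ← nd_left w⁻¹ z w, ← nd_left w⁻¹ x z, ← nd_left w⁻¹ y w,
    ← nd_left w⁻¹ x w, ← nd_left w⁻¹ y z]
  generalize w⁻¹ * x = x
  generalize w⁻¹ * y = y
  generalize w⁻¹ * z = z
  rw [inv_mul_cancel, nd_one, nd_one, nd_one]
  have h1 := nd_cp x y
  have h2 := nd_cp x z
  have h3 := nd_cp y z
  have h4 := cp_ultra z.toWord x.toWord y.toWord
  have h5 := nd_cp z y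
  have h6 := nd_symm z y
  omega

theorem nd_geo (x y : FreeGroup α) (n : ℕ) (hn : n ≤ nd x y) :
    ∃ z, nd x z = n ∧ nd z y + n = nd x y := by
  set L := (x⁻¹ * y).toWord with hL
  have hlen : L.length = nd x y := rfl
  have hred : IsReduced L := isReduced_toWord
  refine ⟨x * mk (L.take n), ?_, ?_⟩
  · unfold nd
    rw [inv_mul_cancel_left, norm_mk_of_red (List.IsChain.take hred n),
      List.length_take, hlen]
    omega
  · have h1 : y = x * (mk (L.take n) * mk (L.drop n)) := by
      rw [FreeGroup.mul_mk, List.take_append_drop, hL, mk_toWord]; group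
    have h2 : nd (x * mk (L.take n)) y = (mk (L.drop n)).norm := by
      unfold nd
      conv_lhs => rw [h1]
      congr 1
      group
    rw [h2, norm_mk_of_red (List.IsChain.drop hred n), List.length_drop, hlen]
    omega

theorem nd_nm : NM (nd (α := α)) where
  self := nd_self
  eq := nd_eq
  symm := nd_symm
  tri := nd_tri
  geo := nd_geo

/-- parity of the word length -/
def par : FreeGroup α →* Multiplicative (ZMod 2) := FreeGroup.lift fun _ => Multiplicative.ofAdd 1

theorem par_mk (L : List (α × Bool)) : (par (mk L)).toAdd = (L.length : ZMod 2) := by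
  induction L with
  | nil =>
    have : mk ([] : List (α × Bool)) = 1 := rfl
    rw [this]; simp
  | cons a L ih =>
    have h2 : mk (a :: L) = mk [a] * mk L := by rw [FreeGroup.mul_mk]; rfl
    have h3 : (par (mk [a])).toAdd = 1 := by
      obtain ⟨a, b⟩ := a
      cases b
      · have : mk [(a, false)] = (FreeGroup.of a)⁻¹ := by
          simp [FreeGroup.of, FreeGroup.inv_mk, FreeGroup.invRev]
        rw [this, map_inv]
        simp only [par, FreeGroup.lift_apply_of]
        decide
      · have : mk [(a, true)] = FreeGroup.of a := rfl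
        rw [this]
        simp only [par, FreeGroup.lift_apply_of]
        rfl
    rw [h2, map_mul, toAdd_mul, ih, h3, List.length_cons]
    push_cast
    ring

theorem par_norm (x : FreeGroup α) : (par x).toAdd = (x.norm : ZMod 2) := by
  conv_lhs => rw [← mk_toWord (x := x)]
  exact par_mk _

theorem nd_par (x y z : FreeGroup α) : Even (nd x y + nd y z + nd x z) := by
  have key : ∀ u v : FreeGroup α, ((nd u v : ℕ) : ZMod 2) = (par u).toAdd + (par v).toAdd := by
    intro u v
    unfold nd
    rw [← par_norm, map_mul, map_inv, toAdd_mul, toAdd_inv]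
    congr 1
    generalize (par u).toAdd = t
    revert t
    decide
  rw [← ZMod.natCast_eq_zero_iff_even]
  push_cast
  rw [key, key, key]
  generalize (par x).toAdd = a
  generalize (par y).toAdd = b
  generalize (par z).toAdd = c
  revert a b c
  decide

end words

end Pool.Agent.X260.LR
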