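import Pool.Agent.X260.LR.Med

/-!
# Coarse maps to trees
-/

set_option autoImplicit false

namespace Pool.Agent.X260.LR

open Pool.Agent.H97R3.VR Pool.Agent.TH97.VR

/-- Lipschitz maps from connected graphs -/
theorem lip_of_adj {W V : Type} {Y : SimpleGraph W} (hY : Y.Connected) {d : V → V → ℕ}
    (hself : ∀ x, d x x = 0) (htri : ∀ x y z, d x z ≤ d x y + d y z) {f : W → V} {C : ℕ}
    (h : ∀ x y, Y.Adj x y → d (f x) (f y) ≤ C) (x y : W) : d (f x) (f y) ≤ C * Y.dist x y := by
  obtain ⟨n, hn⟩ : ∃ n, Y.dist x y = n := ⟨_, rfl⟩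
  rw [hn]
  induction n generalizing y with
  | zero =>
    rw [hY.dist_eq_zero_iff] at hn
    subst hn
    rw [hself]
    exact Nat.zero_le _
  | succ n ih =>
    obtain ⟨w, h1, h2⟩ := exists_pred hY hn
    have h3 := ih w h2
    have h4 := h w y h1
    have h5 := htri (f x) (f w) (f y)
    rw [mul_add, mul_one]
    omega

section coarse

variable {V β : Type} {X : SimpleGraph V} {t : β → β → ℕ}

/-- `X` is quasi-isometric to the tree metric `t` -/
structure QT (X : SimpleGraph V) (t : β → β → ℕ) (p : V → β) (i : β → V) (C : ℕ) : Prop where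
  conn : X.Connected
  nm : NM t
  hyp : H4 t 0
  par : ∀ x y z, Even (t x y + t y z + t x z)
  lp : ∀ x y, t (p x) (p y) ≤ C * X.dist x y
  li : ∀ u v, X.dist (i u) (i v) ≤ C * t u v
  near : ∀ x, X.dist x (i (p x)) ≤ C

variable {p : V → β} {i : β → V} {C : ℕ}

theorem QT.lower (h : QT X t p i C) (x y : V) : X.dist x y ≤ C * t (p x) (p y) + 2 * C := by
  have h1 : X.dist x y ≤ X.dist x (i (p x)) + X.dist (i (p x)) y := h.conn.dist_triangle
  have h2 : X.dist (i (p x)) y ≤ X.dist (i (p x)) (i (p y)) + X.dist (i (p y)) y :=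
    h.conn.dist_triangle
  have h3 := h.near x
  have h4 := h.near y
  have h5 := h.li (p x) (p y)
  have h6 : X.dist (i (p y)) y = X.dist y (i (p y)) := SimpleGraph.dist_comm
  omega

theorem QT.qg (h : QT X t p i C) {k : ℕ} {q : ℕ → V}
    (hq : ∀ a b, a ≤ b → b ≤ k → a + X.dist (q a) (q b) = b) :
    QG t (2 * C) k (fun j => p (q j)) := by
  constructor
  · intro j hj
    have h1 := h.lp (q j) (q (j + 1))
    have h2 := hq j (j + 1) (Nat.le_succ j) hj
    have h3 : X.dist (q j) (q (j + 1)) = 1 := by omega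
    rw [h3] at h1
    show t (p (q j)) (p (q (j + 1))) ≤ 2 * C
    omega
  · intro a b hab hb
    have h1 := h.lower (q a) (q b)
    have h2 := hq a b hab hb
    have h3 : 2 * C * t (p (q a)) (p (q b)) = C * t (p (q a)) (p (q b)) + C * t (p (q a)) (p (q b)) := by
      ring
    show b ≤ a + 2 * C * t (p (q a)) (p (q b)) + 2 * C
    omega

/-- geodesics through a given point -/
theorem geod_through (hX : X.Connected) {x y m : V} (hm : X.dist x m + X.dist m y = X.dist x y) :
    ∃ q : ℕ → V, q 0 = x ∧ q (X.dist x y) = y ∧ q (X.dist x m) = m ∧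
      ∀ a b, a ≤ b → b ≤ X.dist x y → a + X.dist (q a) (q b) = b := by
  obtain ⟨q1, s1, e1, g1⟩ := conn_geod hX x _ m rfl
  obtain ⟨q2, s2, e2, g2⟩ := conn_geod hX m _ y rfl
  refine ⟨fun j => if j ≤ X.dist x m then q1 j else q2 (j - X.dist x m), ?_, ?_, ?_, ?_⟩
  · simp [s1]
  · show (if X.dist x y ≤ X.dist x m then q1 (X.dist x y) else q2 (X.dist x y - X.dist x m)) = y
    split_ifs with h
    · have h1 : X.dist m y = 0 := by omega
      have h2 : X.dist x y = X.dist x m := by omega
      rw [h2, e1]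
      exact hX.dist_eq_zero_iff.1 h1
    · have h2 : X.dist x y - X.dist x m = X.dist m y := by omega
      rw [h2, e2]
  · simp [e1]
  · intro a b hab hb
    show a + X.dist (if a ≤ X.dist x m then q1 a else q2 (a - X.dist x m))
      (if b ≤ X.dist x m then q1 b else q2 (b - X.dist x m)) = b
    by_cases hb' : b ≤ X.dist x m
    · rw [if_pos hb', if_pos (hab.trans hb')]
      exact g1 a b hab hb'
    · rw [if_neg hb']
      by_cases ha' : a ≤ X.dist x m
      · rw [if_pos ha']
        have c1 := g1 0 a (Nat.zero_le _) ha'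
        have c2 := g1 a _ ha' le_rfl
        have c3 := g2 0 (b - X.dist x m) (Nat.zero_le _) (by omega)
        have c4 := g2 (b - X.dist x m) _ (by omega) le_rfl
        rw [s1] at c1
        rw [e1] at c2
        rw [s2] at c3
        rw [e2] at c4
        have t1 : X.dist x y ≤ X.dist x (q1 a) + X.dist (q1 a) y := hX.dist_triangle
        have t2 : X.dist (q1 a) y ≤ X.dist (q1 a) (q2 (b - X.dist x m)) +
          X.dist (q2 (b - X.dist x m)) y := hX.dist_triangle
        have t3 : X.dist (q1 a) (q2 (b - X.dist x m)) ≤ X.dist (q1 a) m +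
          X.dist m (q2 (b - X.dist x m)) := hX.dist_triangle
        omega
      · rw [if_neg ha']
        have := g2 (a - X.dist x m) (b - X.dist x m) (by omega) (by omega)
        omega

theorem QT.near_geod (h : QT X t p i C) : ∃ R, ∀ x y z,
    t (p x) z + t z (p y) = t (p x) (p y) → X.dist x (i z) + X.dist (i z) y ≤ X.dist x y + R := by
  obtain ⟨R, hR⟩ := morse_a h.nm h.hyp (2 * C)
  refine ⟨2 * (C * R + C), fun x y z hz => ?_⟩
  obtain ⟨q, q0, q1, hq⟩ := conn_geod h.conn x _ y rfl
  obtain ⟨j, hj, h1⟩ := hR _ _ (h.qg hq) z (by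
    show t (p (q 0)) z + t z (p (q (X.dist x y))) = t (p (q 0)) (p (q (X.dist x y)))
    rw [q0, q1]; exact hz)
  have h1 : t z (p (q j)) ≤ R := h1
  have h2 := h.li z (p (q j))
  have h3 := h.near (q j)
  have h4 : X.dist (q j) (i z) ≤ X.dist (q j) (i (p (q j))) + X.dist (i (p (q j))) (i z) :=
    h.conn.dist_triangle
  have h5 : X.dist (i (p (q j))) (i z) = X.dist (i z) (i (p (q j))) := SimpleGraph.dist_comm
  have h6 : C * t z (p (q j)) ≤ C * R := Nat.mul_le_mul_left C h1
  have h7 : X.dist x (i z) ≤ X.dist x (q j) + X.dist (q j) (i z) := h.conn.dist_triangle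
  have h8 : X.dist (i z) y ≤ X.dist (i z) (q j) + X.dist (q j) y := h.conn.dist_triangle
  have h9 : X.dist (i z) (q j) = X.dist (q j) (i z) := SimpleGraph.dist_comm
  have c1 := hq 0 j (Nat.zero_le _) hj
  have c2 := hq j _ hj le_rfl
  rw [q0] at c1
  rw [q1] at c2
  omega

theorem QT.geod_near (h : QT X t p i C) : ∃ R, ∀ x y m,
    X.dist x m + X.dist m y = X.dist x y →
      ∃ z, t (p x) z + t z (p y) = t (p x) (p y) ∧ X.dist m (i z) ≤ R := by
  obtain ⟨R, hR⟩ := morse_b h.nm h.hyp (2 * C)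
  refine ⟨C * R + C, fun x y m hm => ?_⟩
  obtain ⟨q, q0, q1, q2, hq⟩ := geod_through h.conn hm
  obtain ⟨z, h1, h2⟩ := hR _ _ (h.qg hq) (X.dist x m) (by omega)
  have h1 : t (p (q 0)) z + t z (p (q (X.dist x y))) = t (p (q 0)) (p (q (X.dist x y))) := h1
  have h2 : t z (p (q (X.dist x m))) ≤ R := h2
  rw [q0, q1] at h1
  rw [q2] at h2
  refine ⟨z, h1, ?_⟩
  have h3 := h.li z (p m)
  have h4 := h.near m
  have h5 : X.dist m (i z) ≤ X.dist m (i (p m)) + X.dist (i (p m)) (i z) := h.conn.dist_triangle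
  have h6 : X.dist (i (p m)) (i z) = X.dist (i z) (i (p m)) := SimpleGraph.dist_comm
  have h7 : C * t z (p m) ≤ C * R := Nat.mul_le_mul_left C h2
  omega

theorem split_geod (hd : NM t) (hyp : H4 t 0) {a b z : β} (hz : t a z + t z b = t a b) (v : β) :
    t a z + t z v = t a v ∨ t b z + t z v = t b v := by
  have h1 := hyp.or a b v z
  have s1 := hd.symm z v
  have s2 := hd.symm z b
  have t1 := hd.tri a z v
  have t2 := hd.tri b z v
  have s3 := hd.symm v z
  have s4 := hd.symm b v
  rcases h1 with h1 | h1 <;> omega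

theorem QT.h4 (h : QT X t p i C) : ∃ δ, H4 (fun x y => X.dist x y) δ := by
  obtain ⟨R, hR⟩ := h.near_geod
  refine ⟨R, fun x y z w => ?_⟩
  show X.dist x y + X.dist z w ≤ max (X.dist x z + X.dist y w) (X.dist x w + X.dist y z) + 2 * R
  obtain ⟨m, m1, m2, m3⟩ := exists_med h.nm h.hyp h.par (p x) (p y) (p z)
  have a1 : X.dist x y ≤ X.dist x (i m) + X.dist (i m) y := h.conn.dist_triangle
  have a2 : X.dist z w ≤ X.dist z (i m) + X.dist (i m) w := h.conn.dist_triangle
  have s1 : X.dist (i m) y = X.dist y (i m) := SimpleGraph.dist_comm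
  have s2 : X.dist z (i m) = X.dist (i m) z := SimpleGraph.dist_comm
  rcases split_geod h.nm h.hyp m1 (p w) with h1 | h1
  · have b1 := hR x w m h1
    have b2 := hR y z m m2
    omega
  · have b1 := hR y w m h1
    have b2 := hR x z m m3
    omega

/-- points of tree geodesics between the ends of a chain -/
theorem chain_near (hd : NM t) (hyp : H4 t 0) {A : V → Prop} {d : V → V → ℕ} {E D : ℕ}
    (hpd : ∀ x y, d x y ≤ E → t (p x) (p y) ≤ D) {n : ℕ} {x y : V} (h : Ch d E A n x y) :
    ∀ z, t (p x) z + t z (p y) = t (p x) (p y) → ∃ a, A a ∧ t z (p a) ≤ D := by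
  induction h with
  | nil x hx =>
    intro z hz
    rw [hd.self] at hz
    refine ⟨x, hx, ?_⟩
    omega
  | cons n x y w h hw hyw ih =>
    intro z hz
    have h1 := h.right
    have h2 := hpd _ _ hyw
    have s1 := hd.symm z (p y)
    have s2 := hd.symm (p w) (p y)
    rcases split_geod hd hyp hz (p y) with h3 | h3
    · exact ih z h3
    · exact ⟨y, h1, by omega⟩

end coarse

end Pool.Agent.X260.LR
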