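import Pool.Agent.X260.LR.Hyp

/-!
# Finitely generated virtually free groups have property (LR)
-/

set_option autoImplicit false

namespace Pool.Agent.X260.LR

open Pool.Agent.H97R3.VR Pool.Agent.TH97.VR
open FreeGroup hiding map_mul map_one map_inv

theorem finite_of_fg_freeGroup (α : Type) [h : Group.FG (FreeGroup α)] : Finite α := by
  have h1 : Group.FG (Abelianization (FreeGroup α)) :=
    Group.fg_of_surjective (f := Abelianization.of) QuotientGroup.mk_surjective
  have h2 : AddGroup.FG (FreeAbelianGroup α) := by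
    have : AddGroup.FG (Additive (Abelianization (FreeGroup α))) := GroupFG.iff_add_fg.1 h1
    exact this
  have h3 : Module.Finite ℤ (FreeAbelianGroup α) := Module.Finite.iff_addGroup_fg.2 h2
  exact Module.Finite.finite_basis (FreeAbelianGroup.basis α)

section grp

variable {G : Type} [Group G] {α : Type} [DecidableEq α] [Finite α]

theorem qt_of (F : Subgroup G) (hF : F.FiniteIndex) (e : F ≃* FreeGroup α) {S : Set G}
    (hS : IsFinGen S) :
    ∃ C, QT (Cay S) (nd (α := α)) (fun x => e (nn F x)) (fun v => ((e.symm v : F) : G)) C := by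
  obtain ⟨C1, hC1⟩ := bdd_of_finite ((tt_finite F hF).prod (hS.1.union (hS.1.image fun s => s⁻¹)))
    (fun p : G × G => nd (e (nn F p.1)) (e (nn F (p.1 * p.2))))
  obtain ⟨C2, hC2⟩ := bdd_of_finite (norm_one_ball (α := α))
    (fun s => (Cay S).dist 1 ((e.symm s : F) : G))
  obtain ⟨C3, hC3⟩ := bdd_of_finite (tt_finite F hF) (fun τ => (Cay S).dist τ 1)
  have hc := cay_conn hS
  refine ⟨C1 + C2 + C3, hc, nd_nm, nd_h4, nd_par, ?_, ?_, ?_⟩
  · intro x y
    have h1 : ∀ x y, (Cay S).Adj x y → nd (e (nn F x)) (e (nn F y)) ≤ C1 := by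
      intro x y h
      have h2 : x⁻¹ * y ∈ S ∪ (fun s => s⁻¹) '' S := by
        rcases h.2 with h | h
        · exact Or.inl h
        · exact Or.inr ⟨_, h, by group⟩
      have h3 := hC1 (tt F x, x⁻¹ * y) ⟨⟨x, rfl⟩, h2⟩
      have h3 : nd (e (nn F (tt F x))) (e (nn F (tt F x * (x⁻¹ * y)))) ≤ C1 := h3
      have h4 : nn F x = nn F x * nn F (tt F x) := by
        rw [← nn_mul, nn_tt]
      have h5 : nn F y = nn F x * nn F (tt F x * (x⁻¹ * y)) := by
        rw [← nn_mul, ← mul_assoc, nn_tt]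
        congr 1
        group
      rw [h4, h5, map_mul, map_mul, nd_left]
      exact h3
    have h2 := lip_of_adj hc (d := nd) nd_self nd_tri h1 x y
    refine h2.trans (Nat.mul_le_mul_right _ (by omega))
  · intro u v
    have h1 : ∀ u v : FreeGroup α, (Gr (nd_nm (α := α))).Adj u v →
        (Cay S).dist ((e.symm u : F) : G) ((e.symm v : F) : G) ≤ C2 := by
      intro u v h
      have h2 : (u⁻¹ * v).norm = 1 := h
      have h3 := hC2 (u⁻¹ * v) h2.le
      have h4 : ((e.symm v : F) : G) = ((e.symm u : F) : G) * ((e.symm (u⁻¹ * v) : F) : G) := by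
        rw [← Subgroup.coe_mul, ← map_mul, mul_inv_cancel_left]
      rw [h4]
      have h5 := cay_inv hS ((e.symm u : F) : G) 1 ((e.symm (u⁻¹ * v) : F) : G)
      rw [mul_one] at h5
      rw [h5]
      exact h3
    have h2 := lip_of_adj (gr_conn (nd_nm (α := α))) (d := fun x y => (Cay S).dist x y)
      (fun _ => SimpleGraph.dist_self) (fun _ _ _ => hc.dist_triangle) h1 u v
    rw [gr_dist] at h2
    exact h2.trans (Nat.mul_le_mul_right _ (by omega))
  · intro x
    show (Cay S).dist x ((e.symm (e (nn F x)) : F) : G) ≤ _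
    rw [e.symm_apply_apply]
    have h1 := cay_inv hS ((nn F x : F) : G) (tt F x) 1
    rw [nn_tt, mul_one] at h1
    rw [h1]
    have h2 := hC3 (tt F x) ⟨x, rfl⟩
    have h2 : (Cay S).dist (tt F x) 1 ≤ C3 := h2
    omega

theorem qc_of (F : Subgroup G) (hF : F.FiniteIndex) (e : F ≃* FreeGroup α) {S : Set G}
    (hS : IsFinGen S) (H : Subgroup G) (hH : H.FG) : IsQuasiconvex H := by
  obtain ⟨C, hC⟩ := qt_of F hF e hS
  obtain ⟨R, hR⟩ := hC.geod_near
  obtain ⟨T, hT⟩ := hH
  obtain ⟨E, hE⟩ := bdd_of_finite T.finite_toSet (fun s => (Cay S).dist 1 s)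
  have hc := cay_conn hS
  have hch : ∀ h ∈ H, ∀ x ∈ H, ∃ n, Ch (fun x y => (Cay S).dist x y) E (fun g => g ∈ H) n x (x * h) := by
    intro h hh
    rw [← hT] at hh
    induction hh using Subgroup.closure_induction with
    | mem s hs =>
      intro x hx
      have hsH : s ∈ H := by rw [← hT]; exact Subgroup.subset_closure hs
      refine ⟨1, Ch.cons 0 x x (x * s) (Ch.nil x hx) (H.mul_mem hx hsH) ?_⟩
      have h1 := cay_inv hS x 1 s
      rw [mul_one] at h1
      show (Cay S).dist x (x * s) ≤ E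
      rw [h1]
      exact hE s hs
    | one =>
      intro x hx
      rw [mul_one]
      exact ⟨0, Ch.nil x hx⟩
    | mul a b ha _ iha ihb =>
      intro x hx
      obtain ⟨n, h1⟩ := iha x hx
      obtain ⟨m, h2⟩ := ihb (x * a) (H.mul_mem hx (by rw [← hT]; exact ha))
      rw [mul_assoc] at h2
      exact ⟨_, h1.trans h2⟩
    | inv a ha iha =>
      intro x hx
      obtain ⟨n, h1⟩ := iha (x * a⁻¹) (H.mul_mem hx (H.inv_mem (by rw [← hT]; exact ha)))
      rw [inv_mul_cancel_right] at h1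
      exact ⟨_, h1.symm (conn_nm hc)⟩
  refine ⟨S, hS, R + C * (C * E) + C, fun a ha b hb m hm => ?_⟩
  obtain ⟨z, h1, h2⟩ := hR a b m hm
  obtain ⟨n, h3⟩ := hch (a⁻¹ * b) (H.mul_mem (H.inv_mem ha) hb) a ha
  rw [mul_inv_cancel_left] at h3
  obtain ⟨h, hh, h4⟩ := chain_near (p := fun x => e (nn F x)) (D := C * E) hC.nm hC.hyp
    (fun x y hxy => (hC.lp x y).trans (Nat.mul_le_mul_left C hxy)) h3 z h1
  refine ⟨h, hh, ?_⟩
  have h5 := hC.li z (e (nn F h))
  have h6 := hC.near h
  have h5 : (Cay S).dist ((e.symm z : F) : G) ((e.symm (e (nn F h)) : F) : G) ≤ C * nd z (e (nn F h)) := h5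
  have h6 : (Cay S).dist h ((e.symm (e (nn F h)) : F) : G) ≤ C := h6
  have h7 : C * nd z (e (nn F h)) ≤ C * (C * E) := Nat.mul_le_mul_left C h4
  have t1 : (Cay S).dist m h ≤ (Cay S).dist m ((e.symm z : F) : G) +
    (Cay S).dist ((e.symm z : F) : G) h := hc.dist_triangle
  have t2 : (Cay S).dist ((e.symm z : F) : G) h ≤
    (Cay S).dist ((e.symm z : F) : G) ((e.symm (e (nn F h)) : F) : G) +
      (Cay S).dist ((e.symm (e (nn F h)) : F) : G) h := hc.dist_triangle
  have t3 : (Cay S).dist ((e.symm (e (nn F h)) : F) : G) h =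
    (Cay S).dist h ((e.symm (e (nn F h)) : F) : G) := SimpleGraph.dist_comm
  have h2 : (Cay S).dist m ((e.symm z : F) : G) ≤ R := h2
  omega

end grp

/-- finitely generated virtually free groups have property (LR) -/
theorem lr_fg {G : Type} [Group G] (hG : Group.FG G) (F : Subgroup G) (hF : F.FiniteIndex)
    (hfree : IsFreeGroup F) (H : Subgroup G) (hH : H.FG) : IsVirtualRetract H := by
  classical
  have hFfg : Group.FG F := Subgroup.fg_of_index_ne_zero F
  let e : F ≃* FreeGroup (IsFreeGroup.Generators F) := IsFreeGroup.toFreeGroup F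
  have h1 : Group.FG (FreeGroup (IsFreeGroup.Generators F)) :=
    Group.fg_of_surjective (f := e.toMonoidHom) e.surjective
  have h2 : Finite (IsFreeGroup.Generators F) := finite_of_fg_freeGroup _
  obtain ⟨S, hS⟩ := hG.out
  have hS' : IsFinGen (S : Set G) := ⟨S.finite_toSet, hS⟩
  obtain ⟨C, hC⟩ := qt_of F hF e hS'
  obtain ⟨δ, hδ⟩ := hC.h4
  exact main_top ⟨S, hS', δ, fun x y z w => hδ x y z w⟩ ⟨F, hF, cs_free e⟩ H
    (qc_of F hF e hS' H hH)

end Pool.Agent.X260.LR
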