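import Pool.Agent.X260.LR.Free

/-!
# Free groups of finite rank are compact special
-/

set_option autoImplicit false

namespace Pool.Agent.X260.LR

open Pool.Agent.H97R3.VR Pool.Agent.TH97.VR
open FreeGroup hiding map_mul map_one map_inv

section med

variable {V : Type} {t : V → V → ℕ}

/-- medians in 0-hyperbolic metrics with even perimeters -/
theorem exists_med (hd : NM t) (hyp : H4 t 0) (hpar : ∀ x y z, Even (t x y + t y z + t x z))
    (u v w : V) : ∃ m, t u m + t m v = t u v ∧ t v m + t m w = t v w ∧ t u m + t m w = t u w := by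
  obtain ⟨k, hk⟩ := hpar u v w
  have h1 := hd.tri u v w
  have h2 := hd.tri v u w
  have h3 := hd.tri u w v
  have s1 := hd.symm v u
  have s2 := hd.symm w v
  obtain ⟨m, hm1, hm2⟩ := hd.geo u v (k - t v w) (by omega)
  refine ⟨m, ?_, ?_, ?_⟩
  · omega
  · have h4 := hyp.or w m u v
    have s3 := hd.symm w m
    have s4 := hd.symm w u
    have s5 := hd.symm v m
    have s6 := hd.symm m u
    have h5 := hd.tri v m w
    have h6 := hd.tri u m w
    omega
  · have h4 := hyp.or w m u v
    have s3 := hd.symm w m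
    have s4 := hd.symm w u
    have s5 := hd.symm v m
    have s6 := hd.symm m u
    have h5 := hd.tri v m w
    have h6 := hd.tri u m w
    omega

/-- the graph of pairs at distance one -/
def Gr (hd : NM t) : SimpleGraph V where
  Adj x y := t x y = 1
  symm := ⟨fun x y h => by rw [hd.symm]; exact h⟩
  loopless := ⟨fun x h => by rw [hd.self] at h; exact absurd h (by omega)⟩

theorem gr_walk (hd : NM t) (n : ℕ) : ∀ x y, t x y = n → ∃ w : (Gr hd).Walk x y, w.length = n := by
  induction n with
  | zero =>
    intro x y h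
    have := hd.eq x y h
    subst this
    exact ⟨SimpleGraph.Walk.nil, rfl⟩
  | succ n ih =>
    intro x y h
    obtain ⟨z, h1, h2⟩ := hd.geo x y n (by omega)
    obtain ⟨w, hw⟩ := ih x z h1
    have hadj : (Gr hd).Adj z y := by show t z y = 1; omega
    exact ⟨w.concat hadj, by rw [SimpleGraph.Walk.length_concat, hw]⟩

theorem gr_conn (hd : NM t) [Nonempty V] : (Gr hd).Connected := by
  refine SimpleGraph.Connected.mk fun x y => ?_
  obtain ⟨w, -⟩ := gr_walk hd _ x y rfl
  exact w.reachable

theorem gr_dist (hd : NM t) [Nonempty V] (x y : V) : (Gr hd).dist x y = t x y := by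
  apply le_antisymm
  · obtain ⟨w, hw⟩ := gr_walk hd _ x y rfl
    have := SimpleGraph.dist_le w
    omega
  · obtain ⟨w, hw⟩ := (gr_conn hd).exists_walk_length_eq_dist x y
    rw [← hw]
    clear hw
    induction w with
    | nil => rw [hd.self]; simp
    | @cons u v z h p ih =>
      rw [SimpleGraph.Walk.length_cons]
      have h1 : t u v = 1 := h
      have h2 := hd.tri u v z
      omega

theorem gr_median (hd : NM t) (hyp : H4 t 0) (hpar : ∀ x y z, Even (t x y + t y z + t x z))
    [Nonempty V] : IsMedian (Gr hd) := by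
  refine ⟨gr_conn hd, fun u v w => ?_⟩
  simp only [Pool.Agent.H97R3.VR.Btw, gr_dist]
  obtain ⟨m, h1, h2, h3⟩ := exists_med hd hyp hpar u v w
  refine ⟨m, ⟨h1, h2, h3⟩, ?_⟩
  rintro m' ⟨h1', h2', h3'⟩
  apply hd.eq
  have s1 := hd.symm m v
  have s2 := hd.symm m' v
  have s3 := hd.symm m m'
  rcases same_interval hd hyp h1 h1' with h | h <;> omega

theorem gr_nosq (hd : NM t) (hyp : H4 t 0) (hpar : ∀ x y z, Even (t x y + t y z + t x z))
    (x y w z : V) : ¬ Square (Gr hd) x y w z := by
  intro h
  have h1 : t x y = 1 := h.xy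
  have h2 : t y w = 1 := h.yw
  have h3 : t w z = 1 := h.wz
  have h4 : t z x = 1 := h.zx
  have h5 := hpar x y w
  have h6 := hpar y w z
  have s1 := hd.symm w y
  have s2 := hd.symm x z
  have s3 := hd.symm z y
  have n1 : t x w ≠ 0 := fun h' => h.ne (hd.eq _ _ h')
  have n2 : t y z ≠ 0 := fun h' => h.ne' (hd.eq _ _ h')
  have h7 := hyp.or x w y z
  have e1 : t x w ≠ 1 := by
    intro h'
    rw [h1, h2, h'] at h5
    exact absurd h5 (by decide)
  have e2 : t y z ≠ 1 := by
    intro h'
    rw [h2, h3, h'] at h6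
    exact absurd h6 (by decide)
  omega

end med

section cs

variable {α : Type} [DecidableEq α]

theorem norm_one_ball [Finite α] : {s : FreeGroup α | s.norm ≤ 1}.Finite := by
  apply Set.Finite.of_injOn (f := FreeGroup.toWord) (t := {L : List (α × Bool) | L.length ≤ 1})
  · intro g hg
    exact hg
  · exact FreeGroup.toWord_injective.injOn
  · exact List.finite_length_le _ 1

theorem sq_one {s : FreeGroup α} (h : s.norm = 1) : s ≠ s⁻¹ := by
  intro h1
  have h2 : s.toWord = invRev s.toWord := by
    conv_lhs => rw [h1, toWord_inv]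
  have h3 : s.toWord.length = 1 := h
  obtain ⟨a, ha⟩ := List.length_eq_one_iff.1 h3
  rw [ha] at h2
  obtain ⟨a, b⟩ := a
  simp [invRev] at h2

/-- free groups of finite rank are compact special -/
theorem cs_free [Finite α] {N : Type} [Group N] (e : N ≃* FreeGroup α) : CompactSpecial N := by
  letI act : MulAction N (FreeGroup α) := MulAction.compHom _ e.toMonoidHom
  have hsm : ∀ (n : N) (v : FreeGroup α), n • v = e n * v := fun _ _ => rfl
  have hnosq := gr_nosq (nd_nm (α := α)) nd_h4 nd_par
  have hadj : ∀ x y : FreeGroup α, (Gr (nd_nm (α := α))).Adj x y ↔ nd x y = 1 := fun _ _ => Iff.rfl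
  have hop : ∀ e f : FreeGroup α × FreeGroup α,
      OPar (Gr (nd_nm (α := α))) (⊤ : Subgroup N) e f → e.1⁻¹ * e.2 = f.1⁻¹ * f.2 := by
    intro e f h
    induction h with
    | rel e f h =>
      cases h with
      | sq x y w z h => exact absurd h (hnosq _ _ _ _)
      | act n hn x y =>
        show x⁻¹ * y = (n • x)⁻¹ * (n • y)
        rw [hsm, hsm]
        group
    | refl e => rfl
    | symm e f _ ih => exact ih.symm
    | trans e f g _ _ ih1 ih2 => exact ih1.trans ih2
  refine ⟨FreeGroup α, act, Gr nd_nm, gr_median nd_nm nd_h4 nd_par, ?_, ?_, ?_⟩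
  · intro v
    refine (norm_one_ball.image fun s => v * s).subset ?_
    intro y hy
    have hy : nd v y = 1 := hy
    refine ⟨v⁻¹ * y, ?_, mul_inv_cancel_left v y⟩
    show (v⁻¹ * y).norm ≤ 1
    exact hy.le
  · intro n x y h
    rw [hadj] at h ⊢
    rw [hsm, hsm, nd_left]
    exact h
  · refine ⟨?_, ?_, ?_, ?_, ?_, ?_⟩
    · intro n _ x hx
      rw [hsm] at hx
      have : e n = 1 := by simpa using hx
      simpa using this
    · refine ⟨{1}, Set.finite_singleton 1, fun v => ⟨e.symm v⁻¹, Subgroup.mem_top _, ?_⟩⟩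
      rw [hsm]
      simp
    · intro x y h h'
      have h1 := hop _ _ h'
      have h2 : nd x y = 1 := h
      apply sq_one h2
      rw [mul_inv_rev, inv_inv]
      exact h1
    · intro p q r o h
      exact absurd h (hnosq _ _ _ _)
    · intro x y z hxy hxz h'
      have h1 := hop _ _ h'
      simpa using h1
    · rintro x y z hxy hxz ⟨p, q, r, o, h, -⟩
      exact absurd h (hnosq _ _ _ _)

end cs

end Pool.Agent.X260.LR
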