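import Pool.Agent.X260.LR.Coarse

/-!
# Finite index overgroups of hyperbolic virtually special groups with (LR)
-/

set_option autoImplicit false

namespace Pool.Agent.X260.LR

open Pool.Agent.H97R3.VR Pool.Agent.TH97.VR

/-- every finitely generated subgroup is a virtual retract -/
def HasLR (G : Type) [Group G] : Prop := ∀ H : Subgroup G, H.FG → IsVirtualRetract H

section grp

variable {G : Type} [Group G]

/-- Lipschitz maps to groups from finite index subgroups -/
theorem lip_nn {S : Set G} (hS : IsFinGen S) (N : Subgroup G) (hN : N.FiniteIndex)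
    {H : Type} [Group H] {T : Set H} (hT : IsFinGen T) (r : N →* H) :
    ∃ C, ∀ x y, (Cay T).dist (r (nn N x)) (r (nn N y)) ≤ C * (Cay S).dist x y := by
  obtain ⟨C, hC⟩ := bdd_of_finite ((tt_finite N hN).prod (hS.1.union (hS.1.image fun s => s⁻¹)))
    (fun p : G × G => (Cay T).dist (r (nn N p.1)) (r (nn N (p.1 * p.2))))
  refine ⟨C, fun x y => ?_⟩
  refine lip_of_adj (cay_conn hS) (d := fun x y => (Cay T).dist x y)
    (fun _ => SimpleGraph.dist_self) (fun _ _ _ => (cay_conn hT).dist_triangle)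
    (f := fun x => r (nn N x)) ?_ x y
  intro x y h
  have h2 : x⁻¹ * y ∈ S ∪ (fun s => s⁻¹) '' S := by
    rcases h.2 with h | h
    · exact Or.inl h
    · exact Or.inr ⟨_, h, by group⟩
  have h3 := hC (tt N x, x⁻¹ * y) ⟨⟨x, rfl⟩, h2⟩
  have h3 : (Cay T).dist (r (nn N (tt N x))) (r (nn N (tt N x * (x⁻¹ * y)))) ≤ C := h3
  have h4 : nn N x = nn N x * nn N (tt N x) := by
    rw [← nn_mul, nn_tt]
  have h5 : nn N y = nn N x * nn N (tt N x * (x⁻¹ * y)) := by
    rw [← nn_mul, ← mul_assoc, nn_tt]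
    congr 1
    group
  show (Cay T).dist (r (nn N x)) (r (nn N y)) ≤ C
  rw [h4, h5, map_mul, map_mul, cay_inv hT]
  exact h3

/-- homomorphisms are Lipschitz -/
theorem lip_hom {S : Set G} (hS : IsFinGen S) {H : Type} [Group H] {T : Set H} (hT : IsFinGen T)
    (r : H →* G) : ∃ C, ∀ x y, (Cay S).dist (r x) (r y) ≤ C * (Cay T).dist x y := by
  obtain ⟨C, hC⟩ := bdd_of_finite (hT.1.union (hT.1.image fun s => s⁻¹))
    (fun s => (Cay S).dist 1 (r s))
  refine ⟨C, fun x y => ?_⟩
  refine lip_of_adj (cay_conn hT) (d := fun x y => (Cay S).dist x y)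
    (fun _ => SimpleGraph.dist_self) (fun _ _ _ => (cay_conn hS).dist_triangle)
    (f := fun x => r x) ?_ x y
  intro x y h
  have h2 : x⁻¹ * y ∈ T ∪ (fun s => s⁻¹) '' T := by
    rcases h.2 with h | h
    · exact Or.inl h
    · exact Or.inr ⟨_, h, by group⟩
  have h3 := hC _ h2
  have h4 := cay_inv hS (r x) 1 (r (x⁻¹ * y))
  rw [mul_one, ← map_mul, mul_inv_cancel_left] at h4
  show (Cay S).dist (r x) (r y) ≤ C
  rw [h4]
  exact h3

theorem qh_of (K : Subgroup G) (hK : K.FiniteIndex) {S : Set G} (hS : IsFinGen S) {T : Set K}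
    (hT : IsFinGen T) {δ : ℕ} (hδ : H4 (fun x y => (Cay T).dist x y) δ) :
    ∃ C, QH (Cay S) (fun x y => (Cay T).dist x y) δ (fun x => nn K x) (fun v => (v : G)) C := by
  obtain ⟨C1, hC1⟩ := lip_nn hS K hK hT (MonoidHom.id K)
  obtain ⟨C2, hC2⟩ := lip_hom hS hT K.subtype
  obtain ⟨C3, hC3⟩ := bdd_of_finite (tt_finite K hK) (fun τ => (Cay S).dist τ 1)
  refine ⟨C1 + C2 + C3, cay_conn hS, conn_nm (cay_conn hT), hδ, ?_, ?_, ?_⟩
  · intro x y
    exact (hC1 x y).trans (Nat.mul_le_mul_right _ (by omega))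
  · intro u v
    exact (hC2 u v).trans (Nat.mul_le_mul_right _ (by omega))
  · intro x
    have h1 := cay_inv hS ((nn K x : K) : G) (tt K x) 1
    rw [nn_tt, mul_one] at h1
    show (Cay S).dist x ((nn K x : K) : G) ≤ _
    rw [h1]
    have h2 := hC3 (tt K x) ⟨x, rfl⟩
    have h2 : (Cay S).dist (tt K x) 1 ≤ C3 := h2
    omega

/-- subgroups which are retracts up to finite index are quasiconvex in hyperbolic groups -/
theorem qc_of_retract {S : Set G} (hS : IsFinGen S) {δ : ℕ}
    (hδ : H4 (fun x y => (Cay S).dist x y) δ) (H : Subgroup G) (hH : H.FG)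
    (N M : Subgroup G) (hN : N.FiniteIndex) (hM : M.FiniteIndex) (r : N →* H)
    (hr : ∀ h : H, (h : G) ∈ M → ∃ hN : (h : G) ∈ N, r ⟨h, hN⟩ = h) : IsQuasiconvex H := by
  have hHfg : Group.FG H := (Group.fg_iff_subgroup_fg H).2 hH
  obtain ⟨T, hT⟩ := hHfg.out
  have hT' : IsFinGen (T : Set H) := ⟨T.finite_toSet, hT⟩
  obtain ⟨C1, hC1⟩ := lip_nn hS N hN hT' r
  obtain ⟨C2, hC2⟩ := lip_hom hS hT' H.subtype
  -- `r ∘ nn` is close to the identity on `H`
  have hMH : (M.subgroupOf H).FiniteIndex := by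
    have := hM
    infer_instance
  obtain ⟨C3, hC3⟩ := bdd_of_finite (tt_finite (M.subgroupOf H) hMH)
    (fun τ : H => (Cay (T : Set H)).dist (r (nn N (τ : G))) τ)
  have hclose : ∀ h : H, (Cay (T : Set H)).dist (r (nn N (h : G))) h ≤ C3 := by
    intro h
    have h1 := nn_tt (M.subgroupOf H) h
    set a : H := (nn (M.subgroupOf H) h : H) with ha
    have haM : (a : G) ∈ M := (nn (M.subgroupOf H) h).2
    obtain ⟨haN, hra⟩ := hr a haM
    have h2 : r (nn N (h : G)) = a * r (nn N ((tt (M.subgroupOf H) h : H) : G)) := by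
      conv_lhs => rw [← h1]
      rw [Subgroup.coe_mul]
      have h3 := nn_mul N (⟨a, haN⟩ : N) ((tt (M.subgroupOf H) h : H) : G)
      have h3 : nn N ((a : G) * ((tt (M.subgroupOf H) h : H) : G)) =
        ⟨a, haN⟩ * nn N ((tt (M.subgroupOf H) h : H) : G) := h3
      rw [h3, map_mul, hra]
    have h4 := hC3 (tt (M.subgroupOf H) h) ⟨h, rfl⟩
    have h5 := cay_inv hT' a (r (nn N ((tt (M.subgroupOf H) h : H) : G))) (tt (M.subgroupOf H) h)
    rw [h1, ← h2] at h5
    rw [h5]
    exact h4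
  have hcT := cay_conn hT'
  have hcS := cay_conn hS
  -- geodesics of `H` are quasi-geodesics of `G`
  obtain ⟨R, hR⟩ := morse_a (conn_nm hcS) hδ (C1 + C2 + 2 * C3)
  refine ⟨S, hS, R, fun a ha b hb m hm => ?_⟩
  obtain ⟨q, q0, q1, hq⟩ := conn_geod hcT (⟨a, ha⟩ : H) _ (⟨b, hb⟩ : H) rfl
  have hQ : QG (fun x y => (Cay S).dist x y) (C1 + C2 + 2 * C3)
      ((Cay (T : Set H)).dist ⟨a, ha⟩ ⟨b, hb⟩) (fun j => ((q j : H) : G)) := by
    constructor
    · intro j hj
      have h1 := hC2 (q j) (q (j + 1))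
      have h2 := hq j (j + 1) (Nat.le_succ j) hj
      have h3 : (Cay (T : Set H)).dist (q j) (q (j + 1)) = 1 := by omega
      rw [h3] at h1
      have h1 : (Cay S).dist ((q j : H) : G) ((q (j + 1) : H) : G) ≤ C2 * 1 := h1
      show (Cay S).dist ((q j : H) : G) ((q (j + 1) : H) : G) ≤ C1 + C2 + 2 * C3
      omega
    · intro i j hij hj
      have h1 := hq i j hij hj
      have h2 := hclose (q i)
      have h3 := hclose (q j)
      have h4 := hC1 (q i : G) (q j : G)
      have t1 : (Cay (T : Set H)).dist (q i) (q j) ≤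
          (Cay (T : Set H)).dist (q i) (r (nn N (q i : G))) +
            (Cay (T : Set H)).dist (r (nn N (q i : G))) (q j) := hcT.dist_triangle
      have t2 : (Cay (T : Set H)).dist (r (nn N (q i : G))) (q j) ≤
          (Cay (T : Set H)).dist (r (nn N (q i : G))) (r (nn N (q j : G))) +
            (Cay (T : Set H)).dist (r (nn N (q j : G))) (q j) := hcT.dist_triangle
      have t3 : (Cay (T : Set H)).dist (q i) (r (nn N (q i : G))) =
        (Cay (T : Set H)).dist (r (nn N (q i : G))) (q i) := SimpleGraph.dist_comm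
      have h5 : C1 * (Cay S).dist (q i : G) (q j : G) ≤
        (C1 + C2 + 2 * C3) * (Cay S).dist (q i : G) (q j : G) :=
        Nat.mul_le_mul_right _ (by omega)
      show j ≤ i + (C1 + C2 + 2 * C3) * (Cay S).dist (q i : G) (q j : G) + (C1 + C2 + 2 * C3)
      omega
  obtain ⟨j, -, hj⟩ := hR _ _ hQ m (by
    show (Cay S).dist ((q 0 : H) : G) m + (Cay S).dist m ((q _ : H) : G) =
      (Cay S).dist ((q 0 : H) : G) ((q _ : H) : G)
    rw [q0, q1]
    exact hm)
  exact ⟨q j, (q j).2, hj⟩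

/-- compact specialness is invariant under isomorphism -/
theorem cs_iso {N N' : Type} [Group N] [Group N'] (e : N' ≃* N) (h : CompactSpecial N) :
    CompactSpecial N' := by
  obtain ⟨V, act, X, hX, hloc, hact, hcs⟩ := h
  letI act' : MulAction N' V := MulAction.compHom V e.toMonoidHom
  have hsm : ∀ (n : N') (v : V), n • v = e n • v := fun _ _ => rfl
  have hop : ∀ x y, OPar X (⊤ : Subgroup N') x y → OPar X (⊤ : Subgroup N) x y := by
    intro x y h
    induction h with
    | rel x y h =>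
      cases h with
      | sq x y w z h => exact Relation.EqvGen.rel _ _ (OStep.sq x y w z h)
      | act n hn x y =>
        rw [hsm, hsm]
        exact Relation.EqvGen.rel _ _ (OStep.act (e n) (Subgroup.mem_top _) x y)
    | refl e => exact Relation.EqvGen.refl _
    | symm e f _ ih => exact Relation.EqvGen.symm _ _ ih
    | trans e f g _ _ ih1 ih2 => exact Relation.EqvGen.trans _ _ _ ih1 ih2
  have hpar : ∀ x y, Par X (⊤ : Subgroup N') x y → Par X (⊤ : Subgroup N) x y := by
    intro x y h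
    induction h with
    | rel x y h =>
      cases h with
      | flip x y => exact par_flip x y
      | sq x y w z h => exact h.par
      | act n hn x y =>
        rw [hsm, hsm]
        exact Relation.EqvGen.rel _ _ (Step.act (e n) (Subgroup.mem_top _) x y)
    | refl e => exact Relation.EqvGen.refl _
    | symm e f _ ih => exact Relation.EqvGen.symm _ _ ih
    | trans e f g _ _ ih1 ih2 => exact Relation.EqvGen.trans _ _ _ ih1 ih2
  refine ⟨V, act', X, hX, hloc, fun n x y hxy => hact _ x y hxy, ?_, ?_, ?_, ?_, ?_, ?_⟩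
  · intro n _ x hx
    have h1 := hcs.free (e n) (Subgroup.mem_top _) x hx
    simpa using h1
  · obtain ⟨T, hT, h⟩ := hcs.cocompact
    refine ⟨T, hT, fun v => ?_⟩
    obtain ⟨n, -, hn⟩ := h v
    refine ⟨e.symm n, Subgroup.mem_top _, ?_⟩
    rw [hsm, e.apply_symm_apply]
    exact hn
  · exact fun x y hxy h => hcs.twosided x y hxy (hop _ _ h)
  · exact fun p q r o hs h => hcs.nocross p q r o hs (hpar _ _ h)
  · exact fun x y z hxy hxz h => hcs.nodirect x y z hxy hxz (hop _ _ h)
  · rintro x y z hxy hxz ⟨p, q, r, o, hs, h1, h2⟩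
    exact hcs.nointer x y z hxy hxz ⟨p, q, r, o, hs, hpar _ _ h1, hpar _ _ h2⟩

theorem fg_subgroupOf (H K : Subgroup G) (hK : K.FiniteIndex) (hH : H.FG) :
    (H.subgroupOf K).FG := by
  have hHfg : Group.FG H := (Group.fg_iff_subgroup_fg H).2 hH
  have h1 : Group.FG (K.subgroupOf H) := Subgroup.fg_of_index_ne_zero _
  have h2 : (K.subgroupOf H).FG := (Group.fg_iff_subgroup_fg _).1 h1
  rw [Subgroup.fg_iff_submonoid_fg] at h2 ⊢
  have h3 := h2.map H.subtype
  refine Submonoid.FG.map_injective K.subtype K.subtype_injective ?_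
  convert h3 using 1
  ext g
  constructor
  · rintro ⟨x, hx, rfl⟩
    exact ⟨⟨x, hx⟩, x.2, rfl⟩
  · rintro ⟨x, hx, rfl⟩
    exact ⟨⟨x, hx⟩, x.2, rfl⟩

/-- groups with a finitely generated subgroup of finite index are finitely generated -/
theorem fg_of_fi (K : Subgroup G) (hK : K.FiniteIndex) (h : Group.FG K) : Group.FG G := by
  classical
  obtain ⟨T, hT⟩ := h.out
  refine ⟨⟨T.image K.subtype ∪ (tt_finite K hK).toFinset, ?_⟩⟩
  rw [eq_top_iff]
  intro g _
  rw [← nn_tt K g]
  refine Subgroup.mul_mem _ ?_ ?_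
  · have h1 : nn K g ∈ Subgroup.closure (T : Set K) := by rw [hT]; exact Subgroup.mem_top _
    have h2 : ((nn K g : K) : G) ∈ (Subgroup.closure (T : Set K)).map K.subtype := ⟨_, h1, rfl⟩
    rw [MonoidHom.map_closure] at h2
    refine Subgroup.closure_mono ?_ h2
    rw [Finset.coe_union, Finset.coe_image]
    exact Set.subset_union_left
  · refine Subgroup.subset_closure ?_
    rw [Finset.coe_union, Set.Finite.coe_toFinset]
    exact Or.inr ⟨g, rfl⟩

theorem fg_of_vr (hG : Group.FG G) (H : Subgroup G) (h : IsVirtualRetract H) : Group.FG H := by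
  obtain ⟨K₁, hK₁, hle, ρ, hρ⟩ := h
  have h1 : Group.FG K₁ := Subgroup.fg_of_index_ne_zero _
  exact Group.fg_of_surjective (f := ρ) fun h => ⟨_, hρ h⟩

theorem fg_up (H K : Subgroup G) (hK : K.FiniteIndex) (h : Group.FG (H.subgroupOf K)) : H.FG := by
  rw [← Group.fg_iff_subgroup_fg]
  have h0 : (H.subgroupOf K).FG := (Group.fg_iff_subgroup_fg _).1 h
  have hfi : (K.subgroupOf H).FiniteIndex := by
    have := hK
    infer_instance
  refine fg_of_fi (K.subgroupOf H) hfi ?_
  rw [Group.fg_iff_subgroup_fg, Subgroup.fg_iff_submonoid_fg]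
  rw [Subgroup.fg_iff_submonoid_fg] at h0
  have h3 := h0.map K.subtype
  refine Submonoid.FG.map_injective H.subtype H.subtype_injective ?_
  convert h3 using 1
  ext g
  constructor
  · rintro ⟨x, hx, rfl⟩
    exact ⟨⟨x, hx⟩, x.2, rfl⟩
  · rintro ⟨x, hx, rfl⟩
    exact ⟨⟨x, hx⟩, x.2, rfl⟩

theorem vr_over (K : Subgroup G) (hK : K.FiniteIndex) (hyp : IsHyperbolic K)
    (hsp : VirtuallyCompactSpecial K) (H : Subgroup G) (hvr : IsVirtualRetract (H.subgroupOf K)) :
    IsVirtualRetract H := by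
  obtain ⟨T, hT, δ, hδ⟩ := hyp
  have hKfg : Group.FG K := ⟨⟨hT.1.toFinset, by rw [Set.Finite.coe_toFinset]; exact hT.2⟩⟩
  have hGfg : Group.FG G := fg_of_fi K hK hKfg
  have hH : H.FG := fg_up H K hK (fg_of_vr hKfg _ hvr)
  obtain ⟨S, hS⟩ := hGfg.out
  have hS' : IsFinGen (S : Set G) := ⟨S.finite_toSet, hS⟩
  obtain ⟨C, hC⟩ := qh_of K hK hS' hT (fun x y z w => hδ x y z w)
  obtain ⟨δ', hδ'⟩ := hC.h4
  -- `G` is virtually compact special
  have hspG : VirtuallyCompactSpecial G := by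
    obtain ⟨N, hN, hcs⟩ := hsp
    refine ⟨N.map K.subtype, ?_,
      cs_iso (N.equivMapOfInjective K.subtype K.subtype_injective).symm hcs⟩
    constructor
    rw [Subgroup.index_map_subtype]
    exact mul_ne_zero hN.index_ne_zero hK.index_ne_zero
  -- `H` is quasiconvex
  have hqc : IsQuasiconvex H := by
    obtain ⟨K₁, hK₁, hle, ρ, hρ⟩ := hvr
    let ι : (H.subgroupOf K) →* H :=
      (K.subtype.comp (H.subgroupOf K).subtype).codRestrict H (fun x => x.2)
    let e := K₁.equivMapOfInjective K.subtype K.subtype_injective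
    refine qc_of_retract hS' hδ' H hH (K₁.map K.subtype) K ?_ hK
      ((ι.comp ρ).comp e.symm.toMonoidHom) ?_
    · constructor
      rw [Subgroup.index_map_subtype]
      exact mul_ne_zero hK₁.index_ne_zero hK.index_ne_zero
    · intro h hhK
      have h1 : (⟨(h : G), hhK⟩ : K) ∈ H.subgroupOf K := h.2
      have h2 : (⟨(h : G), hhK⟩ : K) ∈ K₁ := hle h1
      refine ⟨⟨_, h2, rfl⟩, ?_⟩
      have h3 : e.symm ⟨(h : G), ⟨_, h2, rfl⟩⟩ = ⟨⟨(h : G), hhK⟩, h2⟩ := by
        rw [MulEquiv.symm_apply_eq]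
        apply Subtype.ext
        rfl
      show ι (ρ (e.symm ⟨(h : G), ⟨_, h2, rfl⟩⟩)) = h
      rw [h3]
      have h4 := hρ ⟨⟨(h : G), hhK⟩, h1⟩
      have h5 : ρ ⟨⟨(h : G), hhK⟩, h2⟩ = ⟨⟨(h : G), hhK⟩, h1⟩ := h4
      rw [h5]
      rfl
  exact main_top ⟨S, hS', δ', fun x y z w => hδ' x y z w⟩ hspG H hqc

theorem lr_over (K : Subgroup G) (hK : K.FiniteIndex) (hyp : IsHyperbolic K)
    (hsp : VirtuallyCompactSpecial K) (hLR : HasLR K) : HasLR G :=
  fun H hH => vr_over K hK hyp hsp H (hLR _ (fg_subgroupOf H K hK hH))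

end grp

end Pool.Agent.X260.LR
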